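import Mathlib

open Finset
open scoped symmDiff

namespace Pool.Agent.Results.MP_87e4a0_co.PerfectCodes

/-- The binary string `x` of length `n` contains `s` consecutive ones. -/
def HasRun (n s : ℕ) (x : Fin n → Bool) : Prop :=
  ∃ a : ℕ, a + s ≤ n ∧ ∀ i : Fin n, a ≤ i.val → i.val < a + s → x i = true

/-- The hypercube of dimension `n`: binary strings of length `n`, two of them adjacent when they
differ in exactly one position. -/
def cube (n : ℕ) : SimpleGraph (Fin n → Bool) where
  Adj x y := hammingDist x y = 1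
  symm := ⟨fun x y h => by rw [hammingDist_comm]; exact h⟩
  loopless := ⟨fun x h => by simp at h⟩

/-- The generalized Fibonacci cube: the subgraph of the hypercube induced by the strings that do
not contain `s` consecutive ones. -/
def genFib (n s : ℕ) : SimpleGraph {x : Fin n → Bool // ¬ HasRun n s x} :=
  (cube n).comap Subtype.val

/-- `C` is a perfect code of `G`: every vertex lies in the closed neighbourhood of exactly one
member of `C`. -/
def IsPerfectCode {V : Type*} (G : SimpleGraph V) (C : Set V) : Prop :=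
  ∀ v : V, ∃! c : V, c ∈ C ∧ (v = c ∨ G.Adj c v)

section core

open Classical

variable {n : ℕ}

def near (x c : Finset (Fin n)) : Prop := c = x ∨ ∃ i, c = x ∆ {i}

def runAt (s a : ℕ) (x : Finset (Fin n)) : Prop :=
  a + s ≤ n ∧ ∀ i : Fin n, a ≤ i.val → i.val < a + s → i ∈ x

def Cov (C : Set (Finset (Fin n))) (x : Finset (Fin n)) : Prop := ∃ c ∈ C, near x c

lemma runAt_mono {s a : ℕ} {x y : Finset (Fin n)} (h : runAt s a x) (hxy : x ⊆ y) :
    runAt s a y := ⟨h.1, fun i h1 h2 => hxy (h.2 i h1 h2)⟩

lemma sd_of_mem {x : Finset (Fin n)} {i : Fin n} (h : i ∈ x) : x ∆ {i} = x.erase i := by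
  ext j; simp only [mem_symmDiff, mem_singleton, mem_erase]
  constructor
  · rintro (⟨h1, h2⟩ | ⟨h1, h2⟩)
    · exact ⟨h2, h1⟩
    · subst h1; exact absurd h h2
  · rintro ⟨h1, h2⟩; exact Or.inl ⟨h2, h1⟩

lemma sd_of_not_mem {x : Finset (Fin n)} {i : Fin n} (h : i ∉ x) : x ∆ {i} = insert i x := by
  ext j; simp only [mem_symmDiff, mem_singleton, mem_insert]
  constructor
  · rintro (⟨h1, h2⟩ | ⟨h1, h2⟩)
    · exact Or.inr h1
    · exact Or.inl h1
  · rintro (h1 | h1)
    · subst h1; exact Or.inr ⟨rfl, h⟩
    · refine Or.inl ⟨h1, fun h2 => ?_⟩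
      subst h2; exact h h1

lemma sd_sd (x : Finset (Fin n)) (i : Fin n) : (x ∆ {i}) ∆ {i} = x := by
  rw [symmDiff_assoc, symmDiff_self]; simp

lemma sd_empty (x : Finset (Fin n)) : x ∆ ∅ = x := by
  ext j; simp [mem_symmDiff]

lemma empty_sd (x : Finset (Fin n)) : ∅ ∆ x = x := by
  ext j; simp [mem_symmDiff]

lemma sd_inj {x : Finset (Fin n)} {i j : Fin n} (h : x ∆ {i} = x ∆ {j}) : i = j := by
  have := symmDiff_right_injective x h
  simpa using this

/-- The data of a perfect code in the generalized Fibonacci cube. -/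
structure PC (n s : ℕ) (C : Set (Finset (Fin n))) : Prop where
  norun : ∀ c ∈ C, ∀ a, ¬ runAt s a c
  cov : ∀ x : Finset (Fin n), (∀ a, ¬ runAt s a x) → Cov C x
  uniq : ∀ x : Finset (Fin n), (∀ a, ¬ runAt s a x) → ∀ c ∈ C, ∀ c' ∈ C, near x c → near x c' →
    c = c'

variable {s : ℕ} {C : Set (Finset (Fin n))}

lemma uniq_all (h : PC n s C) (x : Finset (Fin n)) (c : Finset (Fin n)) (hc : c ∈ C)
    (c' : Finset (Fin n)) (hc' : c' ∈ C) (h1 : near x c) (h2 : near x c') : c = c' := by
  by_cases hr : ∀ a, ¬ runAt s a x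
  · exact h.uniq x hr c hc c' hc' h1 h2
  push Not at hr
  obtain ⟨a, ha⟩ := hr
  have key : ∀ d ∈ C, near x d → ∃ i ∈ x, d = x.erase i := by
    intro d hd hn
    rcases hn with rfl | ⟨i, rfl⟩
    · exact absurd ha (h.norun _ hd a)
    · by_cases hi : i ∈ x
      · exact ⟨i, hi, sd_of_mem hi⟩
      · exfalso
        rw [sd_of_not_mem hi] at hd
        exact h.norun _ hd a (runAt_mono ha (subset_insert _ _))
  obtain ⟨i, hi, rfl⟩ := key c hc h1
  obtain ⟨j, hj, rfl⟩ := key c' hc' h2
  by_cases hij : i = j
  · rw [hij]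
  set y := (x.erase i).erase j with hy
  have hyr : ∀ b, ¬ runAt s b y := by
    intro b hb
    exact h.norun _ hc b (runAt_mono hb (erase_subset _ _))
  refine h.uniq y hyr _ hc _ hc' ?_ ?_
  · right
    refine ⟨j, ?_⟩
    have : j ∉ y := by simp [hy]
    rw [sd_of_not_mem this, hy, insert_erase]
    exact mem_erase.2 ⟨fun h => hij h.symm, hj⟩
  · right
    refine ⟨i, ?_⟩
    have : i ∉ y := by simp [hy]
    rw [sd_of_not_mem this, hy, erase_right_comm, insert_erase]
    exact mem_erase.2 ⟨hij, hi⟩

/-- The number of uncovered neighbours. -/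
noncomputable def unc (C : Set (Finset (Fin n))) (x : Finset (Fin n)) : Finset (Fin n) :=
  univ.filter (fun i => ¬ Cov C (x ∆ {i}))

lemma unc_of_mem {x : Finset (Fin n)} (hx : x ∈ C) : unc C x = ∅ := by
  rw [unc, filter_eq_empty_iff]
  intro i _
  rw [not_not]
  exact ⟨x, hx, Or.inr ⟨i, (sd_sd x i).symm⟩⟩

/-- The pairing graph on positions. -/
def pg (C : Set (Finset (Fin n))) (x : Finset (Fin n)) : SimpleGraph (Fin n) where
  Adj i j := i ≠ j ∧ (x ∆ {i}) ∆ {j} ∈ C
  symm := ⟨fun i j h => ⟨h.1.symm, by rw [symmDiff_right_comm]; exact h.2⟩⟩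
  loopless := ⟨fun i h => h.1 rfl⟩

lemma pairing (h : PC n s C) (x : Finset (Fin n)) (hx : x ∉ C) :
    ∃ t, n = (unc C x).card + (univ.filter (fun i => x ∆ {i} ∈ C)).card + 2 * t := by
  have hdeg : ∀ i, (pg C x).degree i ≤ 1 := by
    intro i
    rw [← SimpleGraph.card_neighborFinset_eq_degree, card_le_one]
    intro j hj k hk
    rw [SimpleGraph.mem_neighborFinset] at hj hk
    have := uniq_all h (x ∆ {i}) _ hj.2 _ hk.2 (Or.inr ⟨j, rfl⟩) (Or.inr ⟨k, rfl⟩)
    exact sd_inj this
  have heven := (pg C x).even_card_odd_degree_vertices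
  obtain ⟨t, ht⟩ := heven
  refine ⟨t, ?_⟩
  have hodd : (univ.filter (fun v => Odd ((pg C x).degree v))) =
      univ.filter (fun i => ∃ j, (pg C x).Adj i j) := by
    ext i
    simp only [mem_filter, mem_univ, true_and]
    constructor
    · intro ho
      have : 0 < (pg C x).degree i := ho.pos
      rw [SimpleGraph.degree_pos_iff_exists_adj] at this
      exact this
    · intro he
      have h1 : 0 < (pg C x).degree i := by
        rw [SimpleGraph.degree_pos_iff_exists_adj]; exact he
      have h2 := hdeg i
      have : (pg C x).degree i = 1 := by omega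
      rw [this]; exact odd_one
  rw [hodd] at ht
  have hd1 : Disjoint (univ.filter (fun i => x ∆ {i} ∈ C))
      (univ.filter (fun i => ∃ j, (pg C x).Adj i j)) := by
    rw [disjoint_filter]
    rintro i _ h1 ⟨j, h2⟩
    have := uniq_all h (x ∆ {i}) _ h1 _ h2.2 (Or.inl rfl) (Or.inr ⟨j, rfl⟩)
    have h3 : (x ∆ {i}) ∆ {j} = (x ∆ {i}) ∆ ∅ := by rw [← this, sd_empty]
    have := symmDiff_right_injective _ h3
    simp at this
  have hcov : ∀ i, Cov C (x ∆ {i}) ↔ (x ∆ {i} ∈ C ∨ ∃ j, (pg C x).Adj i j) := by
    intro i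
    constructor
    · rintro ⟨c, hc, rfl | ⟨j, rfl⟩⟩
      · exact Or.inl hc
      · right
        refine ⟨j, ?_, hc⟩
        rintro rfl
        rw [sd_sd] at hc
        exact hx hc
    · rintro (h1 | ⟨j, h1⟩)
      · exact ⟨_, h1, Or.inl rfl⟩
      · exact ⟨_, h1.2, Or.inr ⟨j, rfl⟩⟩
  have hun : unc C x = univ \ ((univ.filter (fun i => x ∆ {i} ∈ C)) ∪
      (univ.filter (fun i => ∃ j, (pg C x).Adj i j))) := by
    ext i
    simp only [unc, mem_filter, mem_univ, true_and, mem_sdiff, mem_union, hcov]
  have hc := card_sdiff_add_card_eq_card (s := (univ.filter (fun i => x ∆ {i} ∈ C)) ∪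
      (univ.filter (fun i => ∃ j, (pg C x).Adj i j))) (t := univ) (subset_univ _)
  rw [← hun, card_union_of_disjoint hd1, ht, card_univ, Fintype.card_fin] at hc
  omega

lemma parity (h : PC n s C) (x : Finset (Fin n)) (hx : x ∉ C) (hcx : Cov C x) :
    ∃ t, n = (unc C x).card + 1 + 2 * t := by
  obtain ⟨t, ht⟩ := pairing h x hx
  refine ⟨t, ?_⟩
  have : (univ.filter (fun i => x ∆ {i} ∈ C)).card = 1 := by
    obtain ⟨c, hc, rfl | ⟨i, rfl⟩⟩ := hcx
    · exact absurd hc hx
    · rw [card_eq_one]
      refine ⟨i, ?_⟩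
      ext j
      simp only [mem_filter, mem_univ, true_and, mem_singleton]
      constructor
      · intro hj
        have := uniq_all h x _ hj _ hc (Or.inr ⟨j, rfl⟩) (Or.inr ⟨i, rfl⟩)
        exact sd_inj this
      · rintro rfl; exact hc
  omega

lemma parity_odd (h : PC n s C) (hn : Odd n) (x : Finset (Fin n)) (hcx : Cov C x) :
    Even (unc C x).card := by
  by_cases hx : x ∈ C
  · rw [unc_of_mem hx]; simp
  · obtain ⟨t, ht⟩ := parity h x hx hcx
    obtain ⟨r, hr⟩ := hn
    exact ⟨r - t, by omega⟩

lemma card_of_runAt {a : ℕ} {x : Finset (Fin n)} (h : runAt s a x) : s ≤ x.card := by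
  have : (univ.filter (fun i : Fin n => a ≤ i.val ∧ i.val < a + s)).card = s := by
    have h1 := h.1
    rw [← card_map Fin.valEmbedding]
    have : (univ.filter (fun i : Fin n => a ≤ i.val ∧ i.val < a + s)).map Fin.valEmbedding
        = Finset.Ico a (a + s) := by
      ext k
      simp only [mem_map, mem_filter, mem_univ, true_and, Fin.valEmbedding_apply, mem_Ico]
      constructor
      · rintro ⟨i, hi, rfl⟩; exact hi
      · intro hk; exact ⟨⟨k, by omega⟩, hk, rfl⟩
    rw [this]; simp
  rw [← this]
  apply card_le_card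
  intro i hi
  simp only [mem_filter, mem_univ, true_and] at hi
  exact h.2 i hi.1 hi.2

/-- The block of positions `a, ..., a + s - 1`. -/
def blk (n s a : ℕ) : Finset (Fin n) := univ.filter (fun i : Fin n => a ≤ i.val ∧ i.val < a + s)

lemma mem_blk {a : ℕ} {i : Fin n} : i ∈ blk n s a ↔ a ≤ i.val ∧ i.val < a + s := by
  simp [blk]

lemma blk_subset {a : ℕ} {x : Finset (Fin n)} (h : runAt s a x) : blk n s a ⊆ x := by
  intro i hi; rw [mem_blk] at hi; exact h.2 i hi.1 hi.2

lemma blk_run {a : ℕ} (h : a + s ≤ n) : runAt s a (blk n s a) :=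
  ⟨h, fun i h1 h2 => mem_blk.2 ⟨h1, h2⟩⟩

lemma blk_card {a : ℕ} (h : a + s ≤ n) : (blk n s a).card = s := by
  rw [← card_map Fin.valEmbedding]
  have : (blk n s a).map Fin.valEmbedding = Finset.Ico a (a + s) := by
    ext k
    simp only [blk, mem_map, mem_filter, mem_univ, true_and, Fin.valEmbedding_apply, mem_Ico]
    constructor
    · rintro ⟨i, hi, rfl⟩; exact hi
    · intro hk; exact ⟨⟨k, by omega⟩, hk, rfl⟩
  rw [this]; simp

/-- A covered set with a run of ones is covered by deleting an element of the run. -/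
lemma cov_run (h : PC n s C) {a : ℕ} {z : Finset (Fin n)} (hr : runAt s a z) (hz : Cov C z) :
    ∃ i ∈ blk n s a, z.erase i ∈ C := by
  obtain ⟨c, hc, rfl | ⟨i, rfl⟩⟩ := hz
  · exact absurd hr (h.norun _ hc a)
  · by_cases hi : i ∈ z
    · rw [sd_of_mem hi] at hc
      refine ⟨i, ?_, hc⟩
      by_contra hb
      refine h.norun _ hc a ⟨hr.1, fun j h1 h2 => mem_erase.2 ⟨?_, hr.2 j h1 h2⟩⟩
      rintro rfl
      exact hb (mem_blk.2 ⟨h1, h2⟩)
    · rw [sd_of_not_mem hi] at hc
      exact absurd (runAt_mono hr (subset_insert _ _)) (h.norun _ hc a)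

/-- If all neighbours but one of a covered set are covered then so is that one (odd dimension). -/
lemma last_cov (h : PC n s C) (hn : Odd n) (x : Finset (Fin n)) (hcx : Cov C x) (i : Fin n)
    (hother : ∀ k, k ≠ i → Cov C (x ∆ {k})) : Cov C (x ∆ {i}) := by
  by_contra hi
  have : unc C x = {i} := by
    ext k
    simp only [unc, mem_filter, mem_univ, true_and, mem_singleton]
    constructor
    · intro hk
      by_contra hki
      exact hk (hother k hki)
    · rintro rfl; exact hi
  have h2 := parity_odd h hn x hcx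
  rw [this, card_singleton] at h2
  exact absurd h2 (by decide)

lemma low_cov (h : PC n s C) (hn : Odd n) (hs : 2 ≤ s) :
    ∀ m, m ≤ 2 * s - 2 → ∀ a, ∀ z : Finset (Fin n), z.card = m → runAt s a z → Cov C z := by
  intro m
  induction m using Nat.strong_induction_on with
  | _ m IHm =>
    intro hm a
    induction a using Nat.strong_induction_on with
    | _ a IHa =>
      intro z hz hr
      have hlow : ∀ y : Finset (Fin n), y.card < m → Cov C y := by
        intro y hy
        by_cases hyr : ∀ b, ¬ runAt s b y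
        · exact h.cov y hyr
        · push Not at hyr
          obtain ⟨b, hb⟩ := hyr
          exact IHm y.card hy (by omega) b y rfl hb
      have h1 := hr.1
      let i : Fin n := ⟨a + s - 1, by omega⟩
      have hi : i ∈ z := hr.2 i (by simp [i]; omega) (by simp [i]; omega)
      set x := z.erase i with hx
      have hix : i ∉ x := by simp [hx]
      have hzx : x ∆ {i} = z := by rw [sd_of_not_mem hix, hx, insert_erase hi]
      have hxc : x.card = m - 1 := by rw [hx, card_erase_of_mem hi, hz]
      have hmpos : 0 < m := by rw [← hz]; exact card_pos.2 ⟨i, hi⟩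
      rw [← hzx]
      refine last_cov h hn x (hlow x (by omega)) i ?_
      intro k hk
      by_cases hkx : k ∈ x
      · rw [sd_of_mem hkx]
        apply hlow
        rw [card_erase_of_mem hkx, hxc]; omega
      · rw [sd_of_not_mem hkx]
        by_cases hyr : ∀ b, ¬ runAt s b (insert k x)
        · exact h.cov _ hyr
        · push Not at hyr
          obtain ⟨b, hb⟩ := hyr
          have hcard : (insert k x).card = m := by
            rw [card_insert_of_notMem hkx, hxc]; omega
          have hib : i ∉ insert k x := by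
            rw [mem_insert]; rintro (h2 | h2)
            · exact hk h2.symm
            · exact hix h2
          have hnot : ¬ (b ≤ a + s - 1 ∧ a + s - 1 < b + s) := by
            rintro ⟨h2, h3⟩
            exact hib (hb.2 i h2 h3)
          by_cases hba : b < a
          · exact IHa b hba _ hcard hb
          · exfalso
            have hb' : a + s ≤ b := by omega
            have hsub : (blk n s b).erase k ∪ blk n s a ⊆ z := by
              intro j hj
              rw [mem_union] at hj
              rcases hj with hj | hj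
              · rw [mem_erase] at hj
                have := blk_subset hb hj.2
                rw [mem_insert] at this
                rcases this with h4 | h4
                · exact absurd h4 hj.1
                · exact mem_of_mem_erase h4
              · exact blk_subset hr hj
            have hdis : Disjoint ((blk n s b).erase k) (blk n s a) := by
              rw [disjoint_left]
              intro j hj1 hj2
              have h5 := (mem_blk.1 (mem_of_mem_erase hj1)).1
              have h6 := (mem_blk.1 hj2).2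
              omega
            have hc1 := card_le_card hsub
            rw [card_union_of_disjoint hdis, hz, blk_card h1] at hc1
            have hc2 := pred_card_le_card_erase (s := blk n s b) (a := k)
            rw [blk_card hb.1] at hc2
            omega

lemma small_cov (h : PC n s C) (hn : Odd n) (hs : 2 ≤ s) (hns : n < 2 * s) :
    ∀ m, ∀ z : Finset (Fin n), z.card = m → Cov C z := by
  intro m
  induction m using Nat.strong_induction_on with
  | _ m IHm =>
    intro z hz
    by_cases hzr : ∀ b, ¬ runAt s b z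
    · exact h.cov z hzr
    push Not at hzr
    obtain ⟨a, hr⟩ := hzr
    have h1 := hr.1
    let i : Fin n := ⟨s - 1, by omega⟩
    have hi : i ∈ z := hr.2 i (by simp [i]; omega) (by simp [i]; omega)
    set x := z.erase i with hx
    have hix : i ∉ x := by simp [hx]
    have hzx : x ∆ {i} = z := by rw [sd_of_not_mem hix, hx, insert_erase hi]
    have hxc : x.card = m - 1 := by rw [hx, card_erase_of_mem hi, hz]
    have hmpos : 0 < m := by rw [← hz]; exact card_pos.2 ⟨i, hi⟩
    rw [← hzx]
    refine last_cov h hn x (IHm x.card (by omega) x rfl) i ?_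
    intro k hk
    by_cases hkx : k ∈ x
    · rw [sd_of_mem hkx]
      refine IHm _ ?_ _ rfl
      rw [card_erase_of_mem hkx, hxc]; omega
    · rw [sd_of_not_mem hkx]
      apply h.cov
      intro b hb
      have hib : i ∉ insert k x := by
        rw [mem_insert]; rintro (h2 | h2)
        · exact hk h2.symm
        · exact hix h2
      have h2 := hb.1
      exact hib (hb.2 i (by simp [i]; omega) (by simp [i]; omega))

lemma norun_of_card {x : Finset (Fin n)} (hx : x.card < s) : ∀ a, ¬ runAt s a x := by
  intro a ha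
  have := card_of_runAt ha
  omega

lemma even_false (h : PC n s C) (hn : Even n) (hn3 : 3 ≤ n) (hs : 2 ≤ s) : False := by
  have hstep : ∀ x : Finset (Fin n), x ∉ C → x.card + 1 < s → False := by
    intro x hx hxs
    obtain ⟨t, ht⟩ := parity h x hx (h.cov x (norun_of_card (by omega)))
    have : unc C x = ∅ := by
      rw [unc, filter_eq_empty_iff]
      intro i _
      rw [not_not]
      apply h.cov
      apply norun_of_card
      by_cases hi : i ∈ x
      · rw [sd_of_mem hi]
        have := card_erase_le (s := x) (a := i)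
        omega
      · rw [sd_of_not_mem hi, card_insert_of_notMem hi]; omega
    rw [this, card_empty] at ht
    obtain ⟨r, hr⟩ := hn
    omega
  by_cases h0 : (∅ : Finset (Fin n)) ∈ C
  · by_cases hs3 : 3 ≤ s
    · let i : Fin n := ⟨0, by omega⟩
      have hi : ({i} : Finset (Fin n)) ∉ C := by
        intro hi
        have := uniq_all h ∅ _ h0 _ hi (Or.inl rfl) (Or.inr ⟨i, (empty_sd _).symm⟩)
        exact absurd this.symm (singleton_ne_empty i)
      exact hstep {i} hi (by simp; omega)
    · have hs2 : s = 2 := by omega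
      subst hs2
      have hsing : ∀ i : Fin n, ({i} : Finset (Fin n)) ∉ C := by
        intro i hi
        have := uniq_all h ∅ _ h0 _ hi (Or.inl rfl) (Or.inr ⟨i, (empty_sd _).symm⟩)
        exact absurd this.symm (singleton_ne_empty i)
      let i1 : Fin n := ⟨1, by omega⟩
      let i0 : Fin n := ⟨0, by omega⟩
      let i2 : Fin n := ⟨2, by omega⟩
      obtain ⟨t, ht⟩ := parity h {i1} (hsing i1) (h.cov _ (norun_of_card (by simp)))
      have hblk : ∀ a : ℕ, ∀ k l : Fin n, k.val = a → l.val = a + 1 →
          ¬ Cov C ({k, l} : Finset (Fin n)) := by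
        intro a k l hk hl hcov
        have hrun : runAt 2 a ({k, l} : Finset (Fin n)) := by
          refine ⟨by have := l.2; omega, fun i h1 h2 => ?_⟩
          rw [mem_insert, mem_singleton]
          rcases Nat.lt_or_ge i.val (a + 1) with h3 | h3
          · left; apply Fin.ext; omega
          · right; apply Fin.ext; omega
        obtain ⟨i, hi, hiC⟩ := cov_run h hrun hcov
        have hi' := blk_subset hrun hi
        rw [mem_insert, mem_singleton] at hi'
        have hkl : k ≠ l := by intro hkl; rw [hkl] at hk; omega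
        rcases hi' with rfl | rfl
        · rw [erase_insert (by simpa using hkl)] at hiC
          exact hsing _ hiC
        · rw [pair_comm, erase_insert (by simpa using hkl.symm)] at hiC
          exact hsing _ hiC
      have hunc : unc C ({i1} : Finset (Fin n)) = {i0, i2} := by
        ext k
        simp only [unc, mem_filter, mem_univ, true_and, mem_insert, mem_singleton]
        constructor
        · intro hk
          by_contra hk2
          push Not at hk2
          apply hk
          apply h.cov
          intro a ha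
          by_cases hk1 : k = i1
          · subst hk1
            have := card_of_runAt ha
            simp at this
          · have hk1' : k ∉ ({i1} : Finset (Fin n)) := by simpa using hk1
            rw [sd_of_not_mem hk1'] at ha
            have hkv0 : k.val ≠ 0 := fun hv => hk2.1 (Fin.ext hv)
            have hkv2 : k.val ≠ 2 := fun hv => hk2.2 (Fin.ext hv)
            have hkv1 : k.val ≠ 1 := fun hv => hk1 (Fin.ext hv)
            have hle := ha.1
            have ha1 := ha.2 ⟨a, by omega⟩ (by simp) (by simp)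
            have ha2 := ha.2 ⟨a + 1, by omega⟩ (by simp) (by simp)
            rw [mem_insert, mem_singleton, Fin.ext_iff, Fin.ext_iff] at ha1 ha2
            simp only [i1] at ha1 ha2
            omega
        · rintro (rfl | rfl)
          · rw [sd_of_not_mem (by simp [i0, i1])]
            exact hblk 0 i0 i1 rfl rfl
          · rw [sd_of_not_mem (by simp [i2, i1]), pair_comm]
            exact hblk 1 i1 i2 rfl rfl
      rw [hunc, card_pair (by simp [i0, i2])] at ht
      obtain ⟨r, hr⟩ := hn
      omega
  · exact hstep ∅ h0 (by simp; omega)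

lemma big_false (h : PC n s C) (hn : Odd n) (hs : 2 ≤ s) (hns : 2 * s ≤ n) : False := by
  have hlow : ∀ a, ∀ z : Finset (Fin n), z.card ≤ 2 * s - 2 → runAt s a z → Cov C z :=
    fun a z hz hr => low_cov h hn hs z.card hz a z rfl hr
  by_cases hs3 : 3 ≤ s
  · set I := blk n s 0 with hI
    have hIr : runAt s 0 I := blk_run (by omega)
    have hIc : I.card = s := blk_card (by omega)
    obtain ⟨i0, hi0, hi0C⟩ := cov_run h hIr (hlow 0 I (by omega) hIr)
    have hex : ∀ k : Fin n, s ≤ k.val → ∃ i ∈ I, (insert k I).erase i ∈ C := by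
      intro k hk
      have hkI : k ∉ I := by rw [hI, mem_blk]; omega
      have hr : runAt s 0 (insert k I) := runAt_mono hIr (subset_insert _ _)
      exact cov_run h hr (hlow 0 _ (by rw [card_insert_of_notMem hkI]; omega) hr)
    choose! f hf using hex
    set K : Finset (Fin n) := univ.filter (fun k : Fin n => s ≤ k.val) with hK
    have hKc : K.card + s = n := by
      have h1 : K = univ \ I := by
        ext k
        simp only [hK, hI, blk, mem_filter, mem_univ, true_and, mem_sdiff]
        omega
      have h2 := card_sdiff_add_card_eq_card (s := I) (t := univ) (subset_univ _)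
      rw [← h1, hIc, card_univ, Fintype.card_fin] at h2
      exact h2
    have hmaps : ∀ k ∈ K, f k ∈ I.erase i0 := by
      intro k hk
      rw [hK, mem_filter] at hk
      obtain ⟨h1, h2⟩ := hf k hk.2
      have hkI : k ∉ I := by rw [hI, mem_blk]; omega
      refine mem_erase.2 ⟨?_, h1⟩
      intro h3
      rw [h3] at h2
      have hne : k ≠ i0 := by rintro rfl; exact hkI hi0
      have h4 : (insert k I).erase i0 = insert k (I.erase i0) := erase_insert_of_ne hne
      rw [h4] at h2
      have hkI' : k ∉ I.erase i0 := fun h => hkI (mem_of_mem_erase h)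
      have := uniq_all h (I.erase i0) _ hi0C _ h2 (Or.inl rfl)
        (Or.inr ⟨k, (sd_of_not_mem hkI').symm⟩)
      exact hkI' (this ▸ mem_insert_self k _)
    have hlt : (I.erase i0).card < K.card := by
      rw [card_erase_of_mem hi0, hIc]; omega
    obtain ⟨k, hk, l, hl, hkl, hfkl⟩ := exists_ne_map_eq_of_card_lt_of_maps_to hlt hmaps
    rw [hK, mem_filter] at hk hl
    obtain ⟨h1, h2⟩ := hf k hk.2
    obtain ⟨h3, h4⟩ := hf l hl.2
    rw [← hfkl] at h4
    have hkI : k ∉ I := by rw [hI, mem_blk]; omega
    have hlI : l ∉ I := by rw [hI, mem_blk]; omega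
    have hk' : k ∉ I.erase (f k) := fun h => hkI (mem_of_mem_erase h)
    have hl' : l ∉ I.erase (f k) := fun h => hlI (mem_of_mem_erase h)
    have hkf : k ≠ f k := fun h => hkI (h ▸ h1)
    have hlf : l ≠ f k := fun h => hlI (h ▸ h1)
    rw [erase_insert_of_ne hkf] at h2
    rw [erase_insert_of_ne hlf] at h4
    have := uniq_all h (I.erase (f k)) _ h2 _ h4 (Or.inr ⟨k, (sd_of_not_mem hk').symm⟩)
        (Or.inr ⟨l, (sd_of_not_mem hl').symm⟩)
    have h5 : k ∈ insert l (I.erase (f k)) := this ▸ mem_insert_self k _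
    rw [mem_insert] at h5
    rcases h5 with h5 | h5
    · exact hkl h5
    · exact hk' h5
  · have hs2 : s = 2 := by omega
    subst hs2
    have hA : ∀ a, a + 2 ≤ n → ∃ k : Fin n, a ≤ k.val ∧ k.val < a + 2 ∧
        ({k} : Finset (Fin n)) ∈ C := by
      intro a ha
      have hr : runAt 2 a (blk n 2 a) := blk_run ha
      have hc : (blk n 2 a).card = 2 := blk_card ha
      obtain ⟨i, hi, hiC⟩ := cov_run h hr (hlow a _ (by omega) hr)
      have h1 : ((blk n 2 a).erase i).card = 1 := by rw [card_erase_of_mem hi, hc]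
      rw [card_eq_one] at h1
      obtain ⟨k, hk⟩ := h1
      rw [hk] at hiC
      have hkm : k ∈ blk n 2 a := mem_of_mem_erase (hk ▸ mem_singleton_self k)
      rw [mem_blk] at hkm
      exact ⟨k, hkm.1, hkm.2, hiC⟩
    obtain ⟨k, hk1, hk2, hkC⟩ := hA 0 (by omega)
    obtain ⟨l, hl1, hl2, hlC⟩ := hA 2 (by omega)
    have := uniq_all h ∅ _ hkC _ hlC (Or.inr ⟨k, (empty_sd _).symm⟩)
      (Or.inr ⟨l, (empty_sd _).symm⟩)
    have h3 : k = l := by simpa using this
    rw [h3] at hk2
    omega

lemma all_cov (h : PC n s C) (hn3 : 3 ≤ n) (hs : 2 ≤ s) (x : Finset (Fin n)) : Cov C x := by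
  rcases Nat.even_or_odd n with hn | hn
  · exact (even_false h hn hn3 hs).elim
  · rcases Nat.lt_or_ge n (2 * s) with h1 | h1
    · exact small_cov h hn hs h1 x.card x rfl
    · exact (big_false h hn hs h1).elim

lemma ball_card (c : Finset (Fin n)) :
    (univ.filter (fun x : Finset (Fin n) => near x c)).card = n + 1 := by
  have : (univ.filter (fun x : Finset (Fin n) => near x c)) =
      insert c (univ.image (fun i : Fin n => c ∆ {i})) := by
    ext x
    simp only [near, mem_filter, mem_univ, true_and, mem_insert, mem_image]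
    constructor
    · rintro (h1 | ⟨i, h1⟩)
      · exact Or.inl h1.symm
      · right; exact ⟨i, by rw [h1, sd_sd]⟩
    · rintro (h1 | ⟨i, h1⟩)
      · exact Or.inl h1.symm
      · right; exact ⟨i, by rw [← h1, sd_sd]⟩
  rw [this, card_insert_of_notMem, card_image_of_injective, card_univ, Fintype.card_fin]
  · intro i j hij; exact sd_inj hij
  · rw [mem_image]
    rintro ⟨i, _, hi⟩
    have h3 : c ∆ {i} = c ∆ ∅ := by rw [hi, sd_empty]
    have := symmDiff_right_injective _ h3
    simp at this

lemma dvd_of_cov (h : PC n s C) (hcov : ∀ x, Cov C x) : (n + 1) ∣ 2 ^ n := by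
  have h1 : ∀ x : Finset (Fin n), (univ.filter (fun c => c ∈ C ∧ near x c)).card = 1 := by
    intro x
    obtain ⟨c, hc, hn⟩ := hcov x
    rw [card_eq_one]
    refine ⟨c, ?_⟩
    ext d
    simp only [mem_filter, mem_univ, true_and, mem_singleton]
    constructor
    · rintro ⟨h2, h3⟩; exact uniq_all h x _ h2 _ hc h3 hn
    · rintro rfl; exact ⟨hc, hn⟩
  have h2 : ∑ x : Finset (Fin n), (univ.filter (fun c => c ∈ C ∧ near x c)).card = 2 ^ n := by
    rw [sum_congr rfl (fun x _ => h1 x)]
    simp
  have h3 : ∑ x : Finset (Fin n), (univ.filter (fun c => c ∈ C ∧ near x c)).card =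
      ∑ c ∈ univ.filter (fun c => c ∈ C),
        (univ.filter (fun x : Finset (Fin n) => near x c)).card := by
    simp only [card_filter]
    rw [sum_comm, sum_filter]
    refine sum_congr rfl fun c _ => ?_
    by_cases hc : c ∈ C
    · simp [hc]
    · simp [hc]
  rw [sum_congr rfl (fun c _ => ball_card c)] at h3
  rw [← h2, h3, sum_const, smul_eq_mul]
  exact dvd_mul_left _ _

end core

section transfer

open Classical

variable {n : ℕ}

/-- The set of positions of the ones of a string. -/
def ones (x : Fin n → Bool) : Finset (Fin n) := univ.filter (fun i => x i = true)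

lemma mem_ones {x : Fin n → Bool} {i : Fin n} : i ∈ ones x ↔ x i = true := by simp [ones]

lemma ones_inj {x y : Fin n → Bool} (h : ones x = ones y) : x = y := by
  funext i
  have := congrArg (fun z => i ∈ z) h
  simp only [mem_ones, eq_iff_iff] at this
  exact Bool.eq_iff_iff.2 this

lemma ones_surj (z : Finset (Fin n)) : ∃ x : Fin n → Bool, ones x = z := by
  refine ⟨fun i => decide (i ∈ z), ?_⟩
  ext i; simp [mem_ones]

lemma ham_ones (x y : Fin n → Bool) : hammingDist x y = (ones x ∆ ones y).card := by
  unfold hammingDist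
  congr 1
  ext i
  simp only [mem_filter, mem_univ, true_and, mem_symmDiff, mem_ones]
  cases x i <;> cases y i <;> simp

lemma near_ones (x c : Fin n → Bool) :
    near (ones x) (ones c) ↔ (x = c ∨ (cube n).Adj c x) := by
  unfold near cube
  simp only
  rw [ham_ones, card_eq_one]
  constructor
  · rintro (h1 | ⟨i, h1⟩)
    · exact Or.inl (ones_inj h1).symm
    · right
      refine ⟨i, ?_⟩
      rw [h1, symmDiff_comm, symmDiff_symmDiff_cancel_left]
  · rintro (h1 | ⟨i, h1⟩)
    · left; rw [h1]
    · right
      refine ⟨i, ?_⟩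
      rw [← h1, symmDiff_comm (ones c), symmDiff_symmDiff_cancel_left]

lemma run_ones (s : ℕ) (x : Fin n → Bool) : HasRun n s x ↔ ∃ a, runAt s a (ones x) := by
  unfold HasRun runAt
  simp only [mem_ones]

end transfer

/-- For `n ≥ 3` and `s ≥ 2`, every perfect code of the generalized Fibonacci cube of the strings
of length `n` without `s` consecutive ones is a perfect code of the whole hypercube, and
`n = 2 ^ p - 1` for some `p`. -/
theorem result : ∀ n s : ℕ, 3 ≤ n → 2 ≤ s →
    ∀ C : Set {x : Fin n → Bool // ¬ HasRun n s x}, IsPerfectCode (genFib n s) C →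
      (∃ p : ℕ, n = 2 ^ p - 1) ∧ IsPerfectCode (cube n) (Subtype.val '' C) := by
  intro n s hn hs C hC
  set D : Set (Finset (Fin n)) := {z | ∃ c ∈ C, z = ones c.1} with hD
  have hPC : PC n s D := by
    refine ⟨?_, ?_, ?_⟩
    · rintro z ⟨c, hc, rfl⟩ a ha
      exact c.2 ((run_ones s c.1).2 ⟨a, ha⟩)
    · intro z hz
      obtain ⟨x, rfl⟩ := ones_surj z
      have hx : ¬ HasRun n s x := by
        rw [run_ones]; push Not; exact hz
      obtain ⟨c, ⟨hc, hn⟩, _⟩ := hC ⟨x, hx⟩
      refine ⟨ones c.1, ⟨c, hc, rfl⟩, ?_⟩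
      rw [near_ones]
      rcases hn with h1 | h1
      · left; rw [← h1]
      · right; exact h1
    · rintro z hz _ ⟨c, hc, rfl⟩ _ ⟨d, hd, rfl⟩ h1 h2
      obtain ⟨x, rfl⟩ := ones_surj z
      have hx : ¬ HasRun n s x := by
        rw [run_ones]; push Not; exact hz
      rw [near_ones] at h1 h2
      have hu := (hC ⟨x, hx⟩).unique (y₁ := c) (y₂ := d) ⟨hc, ?_⟩ ⟨hd, ?_⟩
      · rw [hu]
      · rcases h1 with h1 | h1
        · left; exact Subtype.ext h1
        · right; exact h1
      · rcases h2 with h2 | h2
        · left; exact Subtype.ext h2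
        · right; exact h2
  have hcov := all_cov hPC hn hs
  refine ⟨?_, ?_⟩
  · have hd := dvd_of_cov hPC hcov
    rw [Nat.dvd_prime_pow Nat.prime_two] at hd
    obtain ⟨p, _, hp⟩ := hd
    exact ⟨p, by omega⟩
  · intro x
    obtain ⟨_, ⟨c, hc, rfl⟩, hn⟩ := hcov (ones x)
    rw [near_ones] at hn
    refine ⟨c.1, ⟨⟨c, hc, rfl⟩, hn⟩, ?_⟩
    rintro y ⟨⟨d, hd, rfl⟩, hy⟩
    rw [← near_ones] at hy hn
    exact ones_inj (uniq_all hPC (ones x) _ ⟨d, hd, rfl⟩ _ ⟨c, hc, rfl⟩ hy hn)

end Pool.Agent.Results.MP_87e4a0_co.PerfectCodes
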